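import Pool.Agent.helper4.T7.SpecQ

/-!
# t7:QCG (MP_16912e_nt): the tuples of one pair and one class of `R` as one congruence
-/

set_option autoImplicit false

namespace Pool.Agent.T7

open Finset Pool.Agent.helper3.FT Pool.Agent.T5 Pool.Agent.T6

theorem QCG_res {n k s α β γ : ℤ} (h : ResG n k 1 1 1 s α β γ) : ResG n k 1 1 1 1 α β γ := by
  have hk : k * 1 ∣ k * s := mul_dvd_mul_left k (one_dvd s)
  exact ⟨h.hα, h.hβ, h.hγ, hk.trans h.kα, hk.trans h.kβ, hk.trans h.kγ⟩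

theorem QCG (hRE1 : RE1_stmt) (hRE2 : RE2_stmt) (hTR : TR_stmt) : QCG_stmt := by
  intro n k e' hn hk he' hco
  have hcoZ : IsCoprime ((n : ℤ) * 1) ((k : ℤ) * (e' : ℤ)) := by
    rw [mul_one]
    exact_mod_cast hco.isCoprime
  have h1 : IsCoprime (1 : ℤ) ((n : ℤ) * 1) := isCoprime_one_left
  have h2 : IsCoprime (1 : ℤ) ((k : ℤ) * (e' : ℤ)) := isCoprime_one_left
  obtain ⟨α, β, γ, hR⟩ := hRE1 n k 1 1 1 e' hcoZ h1 h2
  refine ⟨α, β, γ, QCG_res hR, fun c₄ => ?_⟩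
  obtain ⟨c₀, hc₀⟩ := hRE2 n k 1 1 1 e' α β γ hcoZ h1 h2 hR c₄ 0
  refine ⟨c₀, ?_⟩
  have hk0 : (k : ℤ) ≠ 0 := by exact_mod_cast (by omega : k ≠ 0)
  have hnk : Nat.Coprime n k := Nat.Coprime.coprime_mul_right_right hco
  intro m g z
  have e1 : (n : ℤ) ^ 3 * k * e' = ((n : ℤ) ^ 3 * 1) * ((k : ℤ) * (e' : ℤ)) := by ring
  rw [e1, hc₀ m g z]
  constructor
  · rintro ⟨hT, hd⟩
    have hRR : (k : ℤ) * RR ((n, k), (m, g, z)) = z * (n : ℤ) ^ 2 - m ^ 2 := (hTR _ hT).2.1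
    constructor
    · have := hT.c1
      rw [mul_one]
      have e2 : 1 * z * (k : ℤ) ^ 4 + 1 * m * g * (k : ℤ) ^ 2 - 1 * g ^ 2 * (n : ℤ) ^ 2 +
          (n : ℤ) ^ 3 * 0 = z * (k : ℤ) ^ 4 + m * g * (k : ℤ) ^ 2 - g ^ 2 * (n : ℤ) ^ 2 := by ring
      rw [e2]
      exact this
    · have e3 : 1 * z * (n : ℤ) ^ 2 - 1 * m ^ 2 - (k : ℤ) * c₄ =
          (k : ℤ) * (RR ((n, k), (m, g, z)) - c₄) := by
        rw [mul_sub, hRR]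
        ring
      rw [e3]
      exact mul_dvd_mul_left _ hd
  · rintro ⟨hd1, hd2⟩
    have hkd : (k : ℤ) ∣ m ^ 2 - z * (n : ℤ) ^ 2 := by
      have h3 : (k : ℤ) ∣ 1 * z * (n : ℤ) ^ 2 - 1 * m ^ 2 - (k : ℤ) * c₄ :=
        dvd_trans (Dvd.intro _ rfl) hd2
      have h4 : (k : ℤ) ∣ 1 * z * (n : ℤ) ^ 2 - 1 * m ^ 2 := by
        have := dvd_add h3 (Dvd.intro c₄ rfl : (k : ℤ) ∣ (k : ℤ) * c₄)
        rwa [sub_add_cancel] at this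
      have h5 := (dvd_neg (α := ℤ)).2 h4
      have e4 : -(1 * z * (n : ℤ) ^ 2 - 1 * m ^ 2) = m ^ 2 - z * (n : ℤ) ^ 2 := by ring
      rwa [e4] at h5
    have hT : IsT ((n, k), (m, g, z)) := by
      refine ⟨hn, hk, hnk, ?_, hkd⟩
      rw [mul_one] at hd1
      have e2 : 1 * z * (k : ℤ) ^ 4 + 1 * m * g * (k : ℤ) ^ 2 - 1 * g ^ 2 * (n : ℤ) ^ 2 +
          (n : ℤ) ^ 3 * 0 = z * (k : ℤ) ^ 4 + m * g * (k : ℤ) ^ 2 - g ^ 2 * (n : ℤ) ^ 2 := by ring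
      rw [e2] at hd1
      exact hd1
    refine ⟨hT, ?_⟩
    have hRR : (k : ℤ) * RR ((n, k), (m, g, z)) = z * (n : ℤ) ^ 2 - m ^ 2 := (hTR _ hT).2.1
    have e3 : 1 * z * (n : ℤ) ^ 2 - 1 * m ^ 2 - (k : ℤ) * c₄ =
        (k : ℤ) * (RR ((n, k), (m, g, z)) - c₄) := by
      rw [mul_sub, hRR]
      ring
    rw [e3] at hd2
    exact (mul_dvd_mul_iff_left hk0).1 hd2

end Pool.Agent.T7
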